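import Pool.Agent.Helper37.KDB.Extra
import Pool.Agent.Helper37.KDB.St.D1
import Pool.Agent.Helper37.KDB.St.D3

/-! Project KDB, piece D4: a ring of level `i` in the a-window. -/

set_option autoImplicit false

namespace KDB.I.D4

open MeasureTheory KDB

variable (p : Par)

theorem rd_err {d : ℕ} (c : ℝ) (hc : 0 < c) (x : V d) : ‖c • Par.toV (Par.rd c x) - x‖ ≤ c / 2 := by
  rw [pi_norm_le_iff_of_nonneg (by positivity)]
  intro k
  have h1 : (c • Par.toV (Par.rd c x) - x) k = -(c * (x k / c - round (x k / c))) := by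
    simp only [Pi.sub_apply, Pi.smul_apply, smul_eq_mul, Par.toV, Par.rd]
    field_simp
    ring
  rw [h1, norm_neg, norm_mul, Real.norm_of_nonneg hc.le, Real.norm_eq_abs]
  have h2 := abs_sub_round (x k / c)
  nlinarith

theorem ell_ge (hp : p.Ok) : (1000 : ℝ) ≤ p.ell := by
  have h1 : 1000 ≤ p.ell := by
    calc 1000 ≤ p.L := hp.hL
      _ = p.L ^ 1 := (pow_one _).symm
      _ ≤ p.L ^ p.q := Nat.pow_le_pow_right (by have := hp.hL; omega) hp.hq
  exact_mod_cast h1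

theorem xi_pos (hp : p.Ok) (k : ℕ) : 1 ≤ p.xi k := by
  have h1 := ell_ge p hp
  have h2 : (1000 : ℝ) ≤ p.L := by exact_mod_cast hp.hL
  exact one_le_pow₀ (by nlinarith)

theorem hrem_rad (hp : p.Ok) (i : ℕ) (r : ℝ) (hr0 : 0 ≤ r) (hr : r ≤ (p.L : ℝ) ^ i) :
    r * p.rad i ≤ p.xi i / 1000 := by
  have h1 := ell_ge p hp
  have h0 : (0 : ℝ) < p.ell := by linarith
  have h2 : p.rad i = (p.ell : ℝ) ^ i / (p.ell : ℝ) ^ p.b := by
    unfold Par.rad
    rw [zpow_sub₀ h0.ne', zpow_natCast, zpow_natCast]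
  have h3 : (1000 : ℝ) ≤ (p.ell : ℝ) ^ p.b := by
    calc (1000 : ℝ) ≤ (p.ell : ℝ) ^ 1 := by rw [pow_one]; exact h1
      _ ≤ (p.ell : ℝ) ^ p.b := pow_le_pow_right₀ (by linarith) (by unfold Par.b; omega)
  have h4 : p.rad i ≤ (p.ell : ℝ) ^ i / 1000 := by
    rw [h2]
    exact div_le_div_of_nonneg_left (by positivity) (by norm_num) h3
  have h5 : p.xi i = (p.ell : ℝ) ^ i * (p.L : ℝ) ^ i := by
    unfold Par.xi
    rw [mul_pow]
  have h6 : 0 ≤ p.rad i := by
    rw [h2]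
    positivity
  calc r * p.rad i ≤ (p.L : ℝ) ^ i * ((p.ell : ℝ) ^ i / 1000) :=
        mul_le_mul hr h4 h6 (by positivity)
    _ = p.xi i / 1000 := by rw [h5]; ring

/-- a ring of level `i` in the a-window -/
theorem ring_a (hp : p.Ok) (om : ℕ → Nz p.d) (hv : ∀ j, p.Valid j (om j)) (i T j : ℕ)
    (hi : i < p.n) (hT : T % p.tau (i + 1) = p.L / 2 * p.tau i) (hT1 : p.tau i ≤ T)
    (hj : j ∈ Finset.Ico (T - p.tau i) (T - p.tau i + p.W i)) (hlab : (om j).lab = i + 2) :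
    ((om j).sb = true → ∃ B : Fin p.d → ℤ,
      ‖p.Yp om T (j + 1) - p.xi (i + 1) • Par.toV B‖ ≤ p.xi i) ∧
    (∀ D : ℝ, (∃ B : Fin p.d → ℤ, ‖p.Yp om T j - p.xi (i + 1) • Par.toV B‖ ≤ D * p.xi i) →
      ∃ B : Fin p.d → ℤ,
        ‖p.Yp om T (j + 1) - p.xi (i + 1) • Par.toV B‖ ≤ (2 * D + 1) * p.xi i) := by
  obtain ⟨hA, hrem⟩ := winA p hp i T j hT hT1 hj
  obtain ⟨hb1, hb2⟩ := hrem_bounds p hp i j hA
  have hell := ell_ge p hp
  have hL : (1000 : ℝ) ≤ p.L := by exact_mod_cast hp.hL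
  have hxi := xi_pos p hp i
  have hxi1 : 0 < p.xi (i + 1) := lt_of_lt_of_le one_pos (xi_pos p hp (i + 1))
  have hrpos : 0 < p.hrem i j := by
    refine lt_of_lt_of_le (mul_pos (by positivity) ?_) hb1
    have : 1 / (p.ell : ℝ) ≤ 1 / 1000 := by
      apply one_div_le_one_div_of_le <;> linarith
    linarith
  obtain ⟨-, -, -, hu, hy1, hy2⟩ := hv j
  -- the data of the ring
  set x : V p.d := (p.run om j).1 + p.h • (p.run om j).2 with hx
  set v : V p.d := (p.run om j).2 with hvv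
  set xh : V p.d := x - p.vs • (om j).y1 with hxh
  set vh : V p.d := v - p.vs • (om j).y2 with hvh
  set Yh : V p.d := xh + p.hrem i j • vh with hYh
  set A : V p.d := p.xi (i + 1) • Par.toV (p.rA i j xh vh) with hAA
  set M : V p.d := p.xi i • Par.toV (p.rm i j xh vh) with hM
  set U : V p.d := (p.hrem i j * p.rad i) • (om j).u with hU
  have hYp : p.Yp om T j = x + p.hrem i j • v := by
    unfold Par.Yp
    rw [hx, hrem, ← hvv]
    funext k
    simp only [Pi.add_apply, Pi.smul_apply, smul_eq_mul]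
    ring
  have hjump : p.jump j (om j) x v = (om j).sg • (p.wst i j xh vh + p.rad i • (om j).u) := by
    unfold Par.jump
    rw [hlab, if_neg (by omega), if_neg (by omega)]
    have e : i + 2 - 2 = i := by omega
    rw [e, if_pos ⟨hi, Or.inl hA⟩]
  have hw : p.hrem i j • (p.wst i j xh vh + p.rad i • (om j).u) = M + U := by
    unfold Par.wst
    rw [if_pos hA, hM, hU]
    funext k
    simp only [Pi.add_apply, Pi.smul_apply, smul_eq_mul]
    field_simp
  have hYp1 : p.Yp om T (j + 1) = p.Yp om T j + (om j).sg • (M + U) := by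
    have h1 : p.run om (j + 1) = (x, v + p.jump j (om j) x v) := rfl
    have h2 : p.Yp om T (j + 1) = x + p.hrem i j • (v + p.jump j (om j) x v) := by
      unfold Par.Yp
      rw [h1, hrem]
      push_cast
      funext k
      simp only [Pi.add_apply, Pi.smul_apply, smul_eq_mul]
      ring
    rw [h2, hYp, hjump, smul_add, smul_comm (p.hrem i j) (om j).sg, hw]
    abel
  have hYhP : ‖Yh - p.Yp om T j‖ ≤ 1 / 100 := by
    have h1 : Yh - p.Yp om T j = -(p.vs • (om j).y1 + (p.hrem i j * p.vs) • (om j).y2) := by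
      rw [hYp, hYh, hxh, hvh]
      funext k
      simp only [Pi.add_apply, Pi.sub_apply, Pi.neg_apply, Pi.smul_apply, smul_eq_mul]
      ring
    have hvs := hp.hvs
    have h2 : p.hrem i j ≤ (p.L : ℝ) ^ p.n :=
      hb2.trans (pow_le_pow_right₀ (by linarith) hi.le)
    rw [h1, norm_neg]
    calc ‖p.vs • (om j).y1 + (p.hrem i j * p.vs) • (om j).y2‖
        ≤ ‖p.vs • (om j).y1‖ + ‖(p.hrem i j * p.vs) • (om j).y2‖ := norm_add_le _ _
      _ = p.vs * ‖(om j).y1‖ + (p.hrem i j * p.vs) * ‖(om j).y2‖ := by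
          rw [norm_smul, norm_smul, Real.norm_of_nonneg hvs.le,
            Real.norm_of_nonneg (mul_nonneg hrpos.le hvs.le)]
      _ ≤ p.vs * 1 + (p.hrem i j * p.vs) * 1 :=
          add_le_add (mul_le_mul_of_nonneg_left hy1 hvs.le)
            (mul_le_mul_of_nonneg_left hy2 (mul_nonneg hrpos.le hvs.le))
      _ ≤ p.vs * (1 + (p.L : ℝ) ^ p.n) := by nlinarith
      _ ≤ 1 / 100 := hp.hvs1
  have hMerr : ‖M - (A - Yh)‖ ≤ p.xi i / 2 := by
    have h1 : p.rm i j xh vh = Par.rd (p.xi i) (A - Yh) := by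
      unfold Par.rm
      rw [if_pos hA]
    rw [hM, h1]
    exact rd_err _ (by linarith) _
  have hUn : ‖U‖ ≤ p.xi i / 1000 := by
    have h1 := hrem_rad p hp i (p.hrem i j) hrpos.le hb2
    have h2 : 0 ≤ p.rad i := by
      unfold Par.rad
      positivity
    rw [hU, norm_smul, Real.norm_of_nonneg (mul_nonneg hrpos.le h2)]
    calc p.hrem i j * p.rad i * ‖(om j).u‖ ≤ p.hrem i j * p.rad i * 1 :=
          mul_le_mul_of_nonneg_left hu (mul_nonneg hrpos.le h2)
      _ ≤ p.xi i / 1000 := by rw [mul_one]; exact h1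
  have hplus : (om j).sb = true → ‖p.Yp om T (j + 1) - A‖ ≤ p.xi i := by
    intro hsb
    have hsg : (om j).sg = 1 := by
      unfold Nz.sg
      have : (om j).2.1 = true := hsb
      rw [if_pos this]
    have h1 : p.Yp om T (j + 1) - A = -(Yh - p.Yp om T j) + (M - (A - Yh)) + U := by
      rw [hYp1, hsg, one_smul]
      abel
    rw [h1]
    calc ‖-(Yh - p.Yp om T j) + (M - (A - Yh)) + U‖
        ≤ ‖-(Yh - p.Yp om T j)‖ + ‖M - (A - Yh)‖ + ‖U‖ := norm_add₃_le
      _ ≤ 1 / 100 + p.xi i / 2 + p.xi i / 1000 := by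
          rw [norm_neg]
          exact add_le_add (add_le_add hYhP hMerr) hUn
      _ ≤ p.xi i := by linarith
  refine ⟨fun hsb => ⟨p.rA i j xh vh, hplus hsb⟩, ?_⟩
  rintro D ⟨B, hB⟩
  have hD : 0 ≤ D := by
    have h1 : 0 ≤ D * p.xi i := (norm_nonneg _).trans hB
    by_contra hcon
    have : D * p.xi i < 0 := mul_neg_of_neg_of_pos (not_le.1 hcon) (by linarith)
    linarith
  by_cases hsb : (om j).sb = true
  · refine ⟨p.rA i j xh vh, (hplus hsb).trans ?_⟩
    nlinarith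
  · have hsg : (om j).sg = -1 := by
      unfold Nz.sg
      have : ¬ (om j).2.1 = true := hsb
      rw [if_neg this]
    refine ⟨fun k => 2 * B k - p.rA i j xh vh k, ?_⟩
    have h1 : p.Yp om T (j + 1) - p.xi (i + 1) • Par.toV (fun k => 2 * B k - p.rA i j xh vh k) =
        (2 : ℝ) • (p.Yp om T j - p.xi (i + 1) • Par.toV B) + (Yh - p.Yp om T j) -
          (M - (A - Yh)) - U := by
      rw [hYp1, hsg, hAA]
      funext k
      simp only [Pi.add_apply, Pi.sub_apply, Pi.smul_apply, smul_eq_mul, Par.toV]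
      push_cast
      ring
    rw [h1]
    have h2 : ‖(2 : ℝ) • (p.Yp om T j - p.xi (i + 1) • Par.toV B)‖ ≤ 2 * (D * p.xi i) := by
      rw [norm_smul, Real.norm_of_nonneg (by norm_num : (0 : ℝ) ≤ 2)]
      linarith
    calc ‖(2 : ℝ) • (p.Yp om T j - p.xi (i + 1) • Par.toV B) + (Yh - p.Yp om T j) -
          (M - (A - Yh)) - U‖
        ≤ ‖(2 : ℝ) • (p.Yp om T j - p.xi (i + 1) • Par.toV B) + (Yh - p.Yp om T j) -
          (M - (A - Yh))‖ + ‖U‖ := norm_sub_le _ _
      _ ≤ ‖(2 : ℝ) • (p.Yp om T j - p.xi (i + 1) • Par.toV B) + (Yh - p.Yp om T j)‖ +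
          ‖M - (A - Yh)‖ + ‖U‖ := add_le_add_left (norm_sub_le _ _) _
      _ ≤ ‖(2 : ℝ) • (p.Yp om T j - p.xi (i + 1) • Par.toV B)‖ + ‖Yh - p.Yp om T j‖ +
          ‖M - (A - Yh)‖ + ‖U‖ :=
          add_le_add_left (add_le_add_left (norm_add_le _ _) _) _
      _ ≤ 2 * (D * p.xi i) + 1 / 100 + p.xi i / 2 + p.xi i / 1000 :=
          add_le_add (add_le_add (add_le_add h2 hYhP) hMerr) hUn
      _ ≤ (2 * D + 1) * p.xi i := by linarith

end KDB.I.D4
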