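import Pool.Agent.Helper37.KDB.Extra

/-! Project KDB, piece P1: the laws are probability measures. -/

set_option autoImplicit false

namespace KDB.I.P1

open MeasureTheory KDB
open scoped ENNReal

theorem vol_ball (d : ℕ) : volume (Metric.closedBall (0 : V d) 1) = (2 : ℝ≥0∞) ^ d := by
  rw [Real.volume_pi_closedBall _ (by norm_num : (0 : ℝ) ≤ 1), Fintype.card_fin, mul_one,
    ENNReal.ofReal_pow (by norm_num), ENNReal.ofReal_ofNat]

theorem jitLaw_prob (d : ℕ) : IsProbabilityMeasure (jitLaw d) := by
  refine ⟨?_⟩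
  unfold jitLaw
  have h1 : (Metric.closedBall (0 : V d × V d) 1) =
      Metric.closedBall (0 : V d) 1 ×ˢ Metric.closedBall (0 : V d) 1 := by
    rw [closedBall_prod_same]
    rfl
  rw [Measure.smul_apply, Measure.restrict_apply MeasurableSet.univ, Set.univ_inter, h1,
    Measure.volume_eq_prod, Measure.prod_prod, vol_ball, smul_eq_mul, ← mul_pow]
  have h2 : (2 : ℝ≥0∞) * 2 = 4 := by norm_num
  rw [h2]
  exact ENNReal.inv_mul_cancel (pow_ne_zero _ (by norm_num))
    (ENNReal.pow_ne_top (by norm_num))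

theorem uLaw_prob (d : ℕ) : IsProbabilityMeasure (uLaw d) := by
  refine ⟨?_⟩
  unfold uLaw
  rw [Measure.smul_apply, Measure.restrict_apply MeasurableSet.univ, Set.univ_inter, vol_ball,
    smul_eq_mul]
  exact ENNReal.inv_mul_cancel (pow_ne_zero _ (by norm_num))
    (ENNReal.pow_ne_top (by norm_num))

theorem sgLaw_prob : IsProbabilityMeasure sgLaw := by
  refine ⟨?_⟩
  unfold sgLaw
  rw [Measure.add_apply, Measure.smul_apply, Measure.smul_apply, measure_univ, measure_univ,
    smul_eq_mul, mul_one]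
  exact ENNReal.inv_two_add_inv_two

end KDB.I.P1
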