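import Pool.Agent.Helper37.KDB.Extra
import Pool.Agent.Helper37.KDB.St.P1
import Pool.Agent.Helper37.KDB.St.P2
import Pool.Agent.Helper37.KDB.St.P3
import Pool.Agent.Helper37.KDB.St.P9

/-! Project KDB, piece P7: one-step exponential moment. -/

set_option autoImplicit false

namespace KDB.I.P7

open MeasureTheory KDB
open scoped ENNReal

variable (p : Par)

theorem pring_nonneg (hp : p.Ok) (k j : ℕ) : 0 ≤ p.pring k j := by
  unfold Par.pring
  exact div_nonneg (mul_nonneg hp.hmu.le (chi_bounds p k j).1) (Nat.cast_nonneg _)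

theorem pring_le (hp : p.Ok) (k j : ℕ) : p.pring k j ≤ p.mu / p.W k := by
  unfold Par.pring
  refine div_le_div_of_nonneg_right ?_ (Nat.cast_nonneg _)
  have h1 := (chi_bounds p k j).2
  have h2 := hp.hmu
  nlinarith

theorem a0_nonneg (hp : p.Ok) (hH : p.Hok) (j : ℕ) :
    0 ≤ 1 - p.h * p.kap - ∑ k ∈ Finset.range p.n, p.pring k j := by
  have h1 : ∑ k ∈ Finset.range p.n, p.pring k j ≤ ∑ k ∈ Finset.range p.n, p.mu / p.W k :=
    Finset.sum_le_sum fun k _ => pring_le p hp k j
  have h2 := hH.h1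
  linarith

theorem h_nonneg : 0 ≤ p.h := by
  unfold Par.h
  positivity

theorem kd_nonneg (hp : p.Ok) (w : V p.d) : 0 ≤ p.kd w := by
  unfold Par.kd
  split_ifs
  · refine mul_nonneg hp.hlam.le (Real.rpow_nonneg ?_ _)
    unfold e2
    exact Real.sqrt_nonneg _
  · exact le_rfl

/-- a function of the kick -/
theorem lint_kick (hp : p.Ok) (f : V p.d → ℝ≥0∞) (hf : Measurable f) :
    ∫⁻ y : Bool × V p.d × V p.d × (V p.d × V p.d), f y.2.1
      ∂(sgLaw.prod (p.kickLaw.prod ((uLaw p.d).prod (jitLaw p.d)))) = ∫⁻ w, f w ∂p.kickLaw := by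
  have := jitLaw_prob p.d
  have := uLaw_prob p.d
  have := sgLaw_prob
  have := kickLaw_prob p hp
  rw [lintegral_prod _ (by fun_prop)]
  simp only [lintegral_const, measure_univ, mul_one]
  rw [lintegral_prod _ (by fun_prop)]
  simp only [lintegral_const, measure_univ, mul_one]

/-- one step: exponential moment of a function of the label and of the kick -/
theorem step_exp (hp : p.Ok) (hH : p.Hok) (j : ℕ) (g1 : V p.d → ℝ) (g2 : ℕ → ℝ)
    (hg1 : Measurable g1) (h0 : ∀ w, 0 ≤ g1 w) (h0' : ∀ k, 0 ≤ g2 k)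
    (hi : Integrable fun w => p.kd w * (Real.exp (g1 w) - 1)) :
    ∫⁻ z : Nz p.d, ENNReal.ofReal (Real.exp (if z.lab = 0 then 0 else if z.lab = 1 then g1 z.w
        else g2 (z.lab - 2))) ∂p.stepLaw j ≤
      ENNReal.ofReal (Real.exp (p.h * (∫ w, p.kd w * (Real.exp (g1 w) - 1)) +
        ∑ k ∈ Finset.range p.n, p.pring k j * (Real.exp (g2 k) - 1))) := by
  classical
  have := jitLaw_prob p.d
  have := uLaw_prob p.d
  have := sgLaw_prob
  have := kickLaw_prob p hp
  have := labLaw_prob p hp hH j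
  have hlab : Measurable (fun z : Nz p.d => z.lab) := measurable_fst
  have hw : Measurable (fun z : Nz p.d => z.w) := measurable_fst.comp (measurable_snd.comp
    measurable_snd)
  have hm : Measurable (fun z : Nz p.d => ENNReal.ofReal (Real.exp (if z.lab = 0 then 0 else
      if z.lab = 1 then g1 z.w else g2 (z.lab - 2)))) := by
    refine (Real.measurable_exp.comp ?_).ennreal_ofReal
    refine Measurable.ite (hlab (measurableSet_singleton 0)) measurable_const ?_
    refine Measurable.ite (hlab (measurableSet_singleton 1)) (hg1.comp hw) ?_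
    exact (measurable_from_top (f := fun l : ℕ => g2 (l - 2))).comp hlab
  unfold Par.stepLaw
  rw [lintegral_prod _ hm.aemeasurable]
  unfold Par.labLaw
  rw [lintegral_add_measure, lintegral_add_measure, lintegral_smul_measure,
    lintegral_smul_measure, lintegral_finsetSum_measure]
  simp only [lintegral_smul_measure, lintegral_dirac, smul_eq_mul]
  have e0 : ∀ y : Bool × V p.d × V p.d × (V p.d × V p.d), ENNReal.ofReal (Real.exp
      (if Nz.lab ((0, y) : Nz p.d) = 0 then 0 else if Nz.lab ((0, y) : Nz p.d) = 1 then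
        g1 (Nz.w ((0, y) : Nz p.d)) else g2 (Nz.lab ((0, y) : Nz p.d) - 2))) = 1 := by
    intro y
    simp [Nz.lab]
  have e1 : ∀ y : Bool × V p.d × V p.d × (V p.d × V p.d), ENNReal.ofReal (Real.exp
      (if Nz.lab ((1, y) : Nz p.d) = 0 then 0 else if Nz.lab ((1, y) : Nz p.d) = 1 then
        g1 (Nz.w ((1, y) : Nz p.d)) else g2 (Nz.lab ((1, y) : Nz p.d) - 2))) =
        ENNReal.ofReal (Real.exp (g1 y.2.1)) := by
    intro y
    simp [Nz.lab, Nz.w]
  have e2 : ∀ (k : ℕ) (y : Bool × V p.d × V p.d × (V p.d × V p.d)), ENNReal.ofReal (Real.exp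
      (if Nz.lab ((k + 2, y) : Nz p.d) = 0 then 0 else if Nz.lab ((k + 2, y) : Nz p.d) = 1 then
        g1 (Nz.w ((k + 2, y) : Nz p.d)) else g2 (Nz.lab ((k + 2, y) : Nz p.d) - 2))) =
        ENNReal.ofReal (Real.exp (g2 k)) := by
    intro k y
    simp [Nz.lab]
  simp only [e0, e1, e2, lintegral_const, measure_univ, mul_one]
  -- the kick part
  have hkd := kd_int p hp
  have hkap : 0 < p.kap := kap_pos p hp
  have hint : Integrable (fun w => p.kd w * Real.exp (g1 w)) := by
    have h1 := hi.add hkd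
    refine h1.congr (Filter.Eventually.of_forall fun w => ?_)
    simp only [Pi.add_apply]
    ring
  have hI : ∫ w, p.kd w * Real.exp (g1 w) =
      (∫ w, p.kd w * (Real.exp (g1 w) - 1)) + p.kap := by
    unfold Par.kap
    rw [← integral_add hi hkd]
    refine integral_congr_ae (Filter.Eventually.of_forall fun w => ?_)
    simp only
    ring
  have hkdm : AEMeasurable (fun w => ENNReal.ofReal (p.kd w)) volume :=
    hkd.aestronglyMeasurable.aemeasurable.ennreal_ofReal
  have hexm : Measurable fun w => ENNReal.ofReal (Real.exp (g1 w)) :=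
    (Real.measurable_exp.comp hg1).ennreal_ofReal
  have hkick : ENNReal.ofReal (p.h * p.kap) *
      ∫⁻ y : Bool × V p.d × V p.d × (V p.d × V p.d), ENNReal.ofReal (Real.exp (g1 y.2.1))
      ∂(sgLaw.prod (p.kickLaw.prod ((uLaw p.d).prod (jitLaw p.d)))) =
      ENNReal.ofReal (p.h * ((∫ w, p.kd w * (Real.exp (g1 w) - 1)) + p.kap)) := by
    rw [lint_kick p hp (fun w => ENNReal.ofReal (Real.exp (g1 w))) hexm]
    unfold Par.kickLaw
    rw [lintegral_smul_measure, lintegral_withDensity_eq_lintegral_mul₀ hkdm hexm.aemeasurable,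
      smul_eq_mul]
    have h1 : ∫⁻ w, ((fun w => ENNReal.ofReal (p.kd w)) * fun w => ENNReal.ofReal
        (Real.exp (g1 w))) w = ENNReal.ofReal (∫ w, p.kd w * Real.exp (g1 w)) := by
      rw [ofReal_integral_eq_lintegral_ofReal hint (Filter.Eventually.of_forall fun w =>
        mul_nonneg (kd_nonneg p hp w) (Real.exp_pos _).le)]
      refine lintegral_congr fun w => ?_
      rw [Pi.mul_apply, ENNReal.ofReal_mul (kd_nonneg p hp w)]
    rw [h1, hI, ENNReal.ofReal_mul (h_nonneg p), ENNReal.ofReal_mul (h_nonneg p),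
      ← mul_assoc, mul_assoc (ENNReal.ofReal p.h),
      ENNReal.mul_inv_cancel (by rwa [Ne, ENNReal.ofReal_eq_zero, not_le]) ENNReal.ofReal_ne_top,
      mul_one]
  rw [hkick]
  have hI0 : 0 ≤ ∫ w, p.kd w * (Real.exp (g1 w) - 1) := by
    refine integral_nonneg fun w => mul_nonneg (kd_nonneg p hp w) ?_
    have := Real.one_le_exp (h0 w)
    linarith
  have hsum : ∑ k ∈ Finset.range p.n, ENNReal.ofReal (p.pring k j) *
      ENNReal.ofReal (Real.exp (g2 k)) =
      ENNReal.ofReal (∑ k ∈ Finset.range p.n, p.pring k j * Real.exp (g2 k)) := by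
    rw [ENNReal.ofReal_sum_of_nonneg fun k _ =>
      mul_nonneg (pring_nonneg p hp k j) (Real.exp_pos _).le]
    refine Finset.sum_congr rfl fun k _ => ?_
    rw [ENNReal.ofReal_mul (pring_nonneg p hp k j)]
  rw [hsum, ← ENNReal.ofReal_add (a0_nonneg p hp hH j)
    (mul_nonneg (h_nonneg p) (add_nonneg hI0 hkap.le)),
    ← ENNReal.ofReal_add (add_nonneg (a0_nonneg p hp hH j)
      (mul_nonneg (h_nonneg p) (add_nonneg hI0 hkap.le)))
      (Finset.sum_nonneg fun k _ => mul_nonneg (pring_nonneg p hp k j) (Real.exp_pos _).le)]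
  apply ENNReal.ofReal_le_ofReal
  have h3 := Real.add_one_le_exp (p.h * (∫ w, p.kd w * (Real.exp (g1 w) - 1)) +
    ∑ k ∈ Finset.range p.n, p.pring k j * (Real.exp (g2 k) - 1))
  refine le_trans (le_of_eq ?_) h3
  have h4 : ∑ k ∈ Finset.range p.n, p.pring k j * (Real.exp (g2 k) - 1) =
      ∑ k ∈ Finset.range p.n, p.pring k j * Real.exp (g2 k) -
        ∑ k ∈ Finset.range p.n, p.pring k j := by
    rw [← Finset.sum_sub_distrib]
    refine Finset.sum_congr rfl fun k _ => ?_
    ring
  rw [h4]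
  ring

end KDB.I.P7
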