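import Pool.Agent.Helper37.KDB.Extra

/-! Project KDB, piece K5: Kraft counting. -/

set_option autoImplicit false

namespace KDB.I.K5

open MeasureTheory KDB
open scoped ENNReal

/-- Kraft counting: a small finite set near all realisations with a cheap code -/
theorem kraft_count {Om A E : Type} [Countable A] [SeminormedAddCommGroup E] (code : Om → A)
    (w : A → ℝ≥0∞) (hw : ∑' a, w a ≤ 1) (g : Set Om) (Z : Om → E)
    (hc : ∀ o ∈ g, ∀ o' ∈ g, code o = code o' → ‖Z o - Z o'‖ ≤ 1)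
    (B : ℝ) (hB0 : 0 < B) (hB : ∀ o ∈ g, ENNReal.ofReal (1 / B) ≤ w (code o)) :
    ∃ G : Finset E, (G.card : ℝ) ≤ B ∧ ∀ o ∈ g, ∃ z ∈ G, ‖Z o - z‖ ≤ 1 := by
  classical
  have hε : ENNReal.ofReal (1 / B) ≠ 0 := by
    rw [Ne, ENNReal.ofReal_eq_zero, not_le]
    positivity
  obtain ⟨hf, hcard⟩ := ENNReal.finset_card_const_le_le_of_tsum_le ENNReal.one_ne_top hw hε
  let rep : A → E := fun a => if h : ∃ o ∈ g, code o = a then Z h.choose else 0
  refine ⟨hf.toFinset.image rep, ?_, ?_⟩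
  · have h1 : (1 : ℝ≥0∞) / ENNReal.ofReal (1 / B) = ENNReal.ofReal B := by
      rw [← ENNReal.ofReal_one, ← ENNReal.ofReal_div_of_pos (by positivity)]
      congr 1
      field_simp
    rw [h1] at hcard
    have h2 : (hf.toFinset.card : ℝ) ≤ B := by
      have h3 : ((hf.toFinset.card : ℝ≥0∞)).toReal ≤ (ENNReal.ofReal B).toReal :=
        ENNReal.toReal_mono ENNReal.ofReal_ne_top hcard
      rwa [ENNReal.toReal_natCast, ENNReal.toReal_ofReal hB0.le] at h3
    refine le_trans ?_ h2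
    exact_mod_cast Finset.card_image_le
  · intro o ho
    refine ⟨rep (code o), Finset.mem_image_of_mem rep (hf.mem_toFinset.2 (hB o ho)), ?_⟩
    have h : ∃ o' ∈ g, code o' = code o := ⟨o, ho, rfl⟩
    have h1 : rep (code o) = Z h.choose := dif_pos h
    rw [h1]
    exact hc o ho _ h.choose_spec.1 h.choose_spec.2.symm

end KDB.I.K5
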